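import Mathlib
import Pool.Agent.KDet.Smyth

set_option autoImplicit false

namespace Pool.Agent.WFD

open Set Pool.Agent.KDet

/-- sequences with closed tails cannot stay in a compact set -/
theorem no_seq {X : Type} [TopologicalSpace X] {K : Set X} (hK : IsCompact K) (s : ℕ → X)
    (hinj : Function.Injective s) (hcl : ∀ k, IsClosed (s '' {l | k ≤ l})) : ¬ ∀ l, s l ∈ K := by
  intro hall
  obtain ⟨k, hk⟩ := hK.elim_directed_cover (fun k => (s '' {l | k ≤ l})ᶜ) (fun k => (hcl k).isOpen_compl)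
    (by
      intro p _
      rw [mem_iUnion]
      by_cases h : ∃ l, s l = p
      · obtain ⟨l, rfl⟩ := h
        refine ⟨l+1, ?_⟩
        rintro ⟨m, hm, hml⟩
        have := hinj hml
        subst this
        have hm' : m + 1 ≤ m := hm
        omega
      · refine ⟨0, ?_⟩
        rintro ⟨m, _, hml⟩
        exact h ⟨m, hml⟩)
    (by
      intro a b
      refine ⟨max a b, ?_, ?_⟩
      · apply compl_subset_compl.2
        apply image_mono
        intro l hl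
        exact le_trans (le_max_left a b) hl
      · apply compl_subset_compl.2
        apply image_mono
        intro l hl
        exact le_trans (le_max_right a b) hl)
  exact hk (hall k) ⟨k, le_refl k, rfl⟩

/-- every irreducible closed set has a generic point -/
def Sob (W : Type) [TopologicalSpace W] : Prop :=
  ∀ A : Set W, IsClosed A → IsIrreducible A → ∃ a ∈ A, ∀ U : Set W, IsOpen U → (U ∩ A).Nonempty → a ∈ U

/-- abstract Hofmann-Mislove / Rudin lemma: filtered families of compact sets in a sober space -/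
theorem filt {W : Type} [TopologicalSpace W] (hW : Sob W) {ι : Type} [Nonempty ι] (M : ι → Set W)
    (hM : ∀ i, IsCompact (M i)) (hdir : ∀ i j, ∃ k, M k ⊆ M i ∩ M j) (U : Set W) (hU : IsOpen U)
    (hsub : (⋂₀ {V : Set W | IsOpen V ∧ ∃ i, M i ⊆ V}) ⊆ U) : ∃ i, M i ⊆ U := by
  by_contra hcon
  push Not at hcon
  have hz : ∃ A : Set W, Minimal (fun A => IsClosed A ∧ A ⊆ Uᶜ ∧ ∀ t, (M t ∩ A).Nonempty) A := by
    have := zorn_superset_nonempty {A : Set W | IsClosed A ∧ A ⊆ Uᶜ ∧ ∀ t, (M t ∩ A).Nonempty} ?_ Uᶜ ?_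
    · obtain ⟨A, _, hA⟩ := this
      exact ⟨A, hA⟩
    · intro c hc hchain hcne
      refine ⟨⋂₀ c, ⟨?_, ?_, ?_⟩, fun s hs => sInter_subset_of_mem hs⟩
      · exact isClosed_sInter (fun A hA => (hc hA).1)
      · obtain ⟨A, hA⟩ := hcne
        exact (sInter_subset_of_mem hA).trans (hc hA).2.1
      · intro t
        have : Nonempty c := hcne.to_subtype
        have hdir : Directed (· ⊇ ·) (fun A : c => A.1) := by
          intro A B
          rcases hchain.total A.2 B.2 with h | h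
          · exact ⟨A, Subset.rfl, h⟩
          · exact ⟨B, h, Subset.rfl⟩
        have := (hM t).inter_iInter_nonempty (fun A : c => A.1) (fun A => (hc A.2).1) ?_
        · rwa [sInter_eq_iInter]
        · intro u
          obtain ⟨A, hA⟩ := hdir.finset_le u
          obtain ⟨x, hx1, hx2⟩ := (hc A.2).2.2 t
          exact ⟨x, hx1, mem_iInter₂.2 (fun B hB => hA B hB hx2)⟩
    · refine ⟨hU.isClosed_compl, Subset.rfl, ?_⟩
      intro t
      obtain ⟨x, hx, hxU⟩ := not_subset.1 (hcon t)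
      exact ⟨x, hx, hxU⟩
  obtain ⟨A, hA⟩ := hz
  obtain ⟨hAc, hAU, hAm⟩ := hA.prop
  have hmin : ∀ V : Set W, IsOpen V → (A ∩ V).Nonempty → ∃ i, M i ∩ A ⊆ V := by
    intro V hV ⟨x, hxA, hxV⟩
    by_contra hc
    push Not at hc
    have := hA.le_of_le (y := A \ V) ⟨hAc.sdiff hV, sdiff_subset.trans hAU, by
      intro t
      obtain ⟨z, hz, hzV⟩ := not_subset.1 (hc t)
      exact ⟨z, hz.1, hz.2, hzV⟩⟩ sdiff_subset
    exact (this hxA).2 hxV
  have hirr : IsIrreducible A := by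
    refine ⟨?_, ?_⟩
    · obtain ⟨i⟩ := (inferInstance : Nonempty ι)
      obtain ⟨x, _, hx⟩ := hAm i
      exact ⟨x, hx⟩
    · intro V1 V2 h1 h2 hn1 hn2
      obtain ⟨i, hi⟩ := hmin V1 h1 hn1
      obtain ⟨j, hj⟩ := hmin V2 h2 hn2
      obtain ⟨k, hk⟩ := hdir i j
      obtain ⟨x, hx, hxA⟩ := hAm k
      exact ⟨x, hxA, hi ⟨(hk hx).1, hxA⟩, hj ⟨(hk hx).2, hxA⟩⟩
  obtain ⟨a, haA, hgen⟩ := hW A hAc hirr
  refine hAU haA (hsub ?_)
  rintro V ⟨hV, i, hi⟩
  apply hgen V hV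
  obtain ⟨x, hx, hxA⟩ := hAm i
  exact ⟨x, hi hx, hxA⟩

/-- general criterion for subspaces of the Smyth power space of a sober space to be well-filtered -/
theorem wf_sub {W : Type} [TopologicalSpace W] (hW : Sob W) (P : PS W → Prop)
    (hP : ∀ (ι : Type) [Nonempty ι] (C : ι → Set (PS W)) (Q : PS W),
      (∀ i, (C i).Nonempty) → (∀ i, ∀ L ∈ C i, P L) →
      (∀ i, IsCompact (⋃ L ∈ C i, L.1)) → (∀ i j, ∃ k, C k ⊆ C i ∩ C j) →
      (∀ i, ∀ L ∈ C i, Q.1 ⊆ L.1) →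
      (∀ U : Set W, IsOpen U → Q.1 ⊆ U → ∃ i, ∀ L ∈ C i, L.1 ⊆ U) → P Q)
    (𝒦 : Set (Set {L : PS W // P L})) (𝒰 : Set {L : PS W // P L})
    (hK : ∀ K ∈ 𝒦, IsCompact K ∧
            ∀ y : {L : PS W // P L}, (∀ V : Set {L : PS W // P L}, IsOpen V → K ⊆ V → y ∈ V) → y ∈ K)
    (hne : 𝒦.Nonempty) (hdir : ∀ K₁ ∈ 𝒦, ∀ K₂ ∈ 𝒦, ∃ K₃ ∈ 𝒦, K₃ ⊆ K₁ ∩ K₂)
    (hU : IsOpen 𝒰) (hsub : ⋂₀ 𝒦 ⊆ 𝒰) : ∃ K ∈ 𝒦, K ⊆ 𝒰 := by
  by_contra hcon
  push Not at hcon
  have hz : ∃ A : Set {L : PS W // P L}, Minimal (fun A => IsClosed A ∧ A ⊆ 𝒰ᶜ ∧ ∀ K ∈ 𝒦, (K ∩ A).Nonempty) A := by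
    have := zorn_superset_nonempty {A : Set {L : PS W // P L} | IsClosed A ∧ A ⊆ 𝒰ᶜ ∧ ∀ K ∈ 𝒦, (K ∩ A).Nonempty} ?_ 𝒰ᶜ ?_
    · obtain ⟨A, _, hA⟩ := this
      exact ⟨A, hA⟩
    · intro c hc hchain hcne
      refine ⟨⋂₀ c, ⟨?_, ?_, ?_⟩, fun s hs => sInter_subset_of_mem hs⟩
      · exact isClosed_sInter (fun A hA => (hc hA).1)
      · obtain ⟨A, hA⟩ := hcne
        exact (sInter_subset_of_mem hA).trans (hc hA).2.1
      · intro t ht
        have : Nonempty c := hcne.to_subtype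
        have hdir : Directed (· ⊇ ·) (fun A : c => A.1) := by
          intro A B
          rcases hchain.total A.2 B.2 with h | h
          · exact ⟨A, Subset.rfl, h⟩
          · exact ⟨B, h, Subset.rfl⟩
        have := (hK t ht).1.inter_iInter_nonempty (fun A : c => A.1) (fun A => (hc A.2).1) ?_
        · rwa [sInter_eq_iInter]
        · intro u
          obtain ⟨A, hA⟩ := hdir.finset_le u
          obtain ⟨x, hx1, hx2⟩ := (hc A.2).2.2 t ht
          exact ⟨x, hx1, mem_iInter₂.2 (fun B hB => hA B hB hx2)⟩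
    · refine ⟨hU.isClosed_compl, Subset.rfl, ?_⟩
      intro t ht
      obtain ⟨x, hx, hxU⟩ := not_subset.1 (hcon t ht)
      exact ⟨x, hx, hxU⟩
  obtain ⟨A, hA⟩ := hz
  obtain ⟨hAc, hAU, hAm⟩ := hA.prop
  have hmin : ∀ V : Set {L : PS W // P L}, IsOpen V → (A ∩ V).Nonempty → ∃ K ∈ 𝒦, K ∩ A ⊆ V := by
    intro V hV ⟨x, hxA, hxV⟩
    by_contra hc
    push Not at hc
    have := hA.le_of_le (y := A \ V) ⟨hAc.sdiff hV, sdiff_subset.trans hAU, by
      intro t ht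
      obtain ⟨z, hz, hzV⟩ := not_subset.1 (hc t ht)
      exact ⟨z, hz.1, hz.2, hzV⟩⟩ sdiff_subset
    exact (this hxA).2 hxV
  have hne' : Nonempty 𝒦 := hne.to_subtype
  set C : 𝒦 → Set (PS W) := fun K => Subtype.val '' (K.1 ∩ A) with hC
  have hbox : ∀ U : Set W, IsOpen U → IsOpen {L : {L : PS W // P L} | L.1.1 ⊆ U} :=
    fun U hU => (PS_box W U hU).preimage continuous_subtype_val
  -- each union is compact
  have hcomp : ∀ K : 𝒦, IsCompact (⋃ L ∈ C K, L.1) := by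
    intro K
    apply isCompact_of_finite_subcover
    intro ι V hVo hVc
    have hcK : IsCompact (K.1 ∩ A) := (hK K.1 K.2).1.inter_right hAc
    obtain ⟨t, ht⟩ := hcK.elim_directed_cover
      (fun u : Finset ι => {L : {L : PS W // P L} | L.1.1 ⊆ ⋃ i ∈ u, V i})
      (fun u => hbox _ (isOpen_biUnion (fun i _ => hVo i)))
      (by
        intro L hL
        have hLV : L.1.1 ⊆ ⋃ i, V i := by
          refine Subset.trans ?_ hVc
          intro x hx
          exact mem_iUnion₂.2 ⟨L.1, ⟨L, hL, rfl⟩, hx⟩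
        obtain ⟨u, hu⟩ := L.1.2.2.1.elim_finite_subcover V hVo hLV
        exact mem_iUnion.2 ⟨u, hu⟩)
      (by
        classical
        intro u v
        refine ⟨u ∪ v, ?_, ?_⟩
        · intro L hL
          refine Subset.trans hL ?_
          exact biUnion_subset_biUnion_left (fun i hi => Finset.mem_union_left _ hi)
        · intro L hL
          refine Subset.trans hL ?_
          exact biUnion_subset_biUnion_left (fun i hi => Finset.mem_union_right _ hi))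
    refine ⟨t, ?_⟩
    intro x hx
    obtain ⟨L, ⟨L', hL', rfl⟩, hxL⟩ := mem_iUnion₂.1 hx
    exact ht hL' hxL
  have hCdir : ∀ i j : 𝒦, ∃ k : 𝒦, C k ⊆ C i ∩ C j := by
    intro i j
    obtain ⟨k, hk, hkij⟩ := hdir i.1 i.2 j.1 j.2
    refine ⟨⟨k, hk⟩, ?_⟩
    rintro _ ⟨L, hL, rfl⟩
    exact ⟨⟨L, ⟨(hkij hL.1).1, hL.2⟩, rfl⟩, ⟨L, ⟨(hkij hL.1).2, hL.2⟩, rfl⟩⟩
  have hMdir : ∀ i j : 𝒦, ∃ k : 𝒦, (⋃ L ∈ C k, L.1) ⊆ (⋃ L ∈ C i, L.1) ∩ (⋃ L ∈ C j, L.1) := by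
    intro i j
    obtain ⟨k, hk⟩ := hCdir i j
    refine ⟨k, subset_inter ?_ ?_⟩
    · exact biUnion_subset_biUnion_left (fun L hL => (hk hL).1)
    · exact biUnion_subset_biUnion_left (fun L hL => (hk hL).2)
  set Q : Set W := ⋂₀ {V : Set W | IsOpen V ∧ ∃ i : 𝒦, (⋃ L ∈ C i, L.1) ⊆ V} with hQ
  have key : ∀ U : Set W, IsOpen U → Q ⊆ U → ∃ i : 𝒦, (⋃ L ∈ C i, L.1) ⊆ U :=
    fun U hU hs => filt hW (fun i : 𝒦 => ⋃ L ∈ C i, L.1) hcomp hMdir U hU hs
  have hCne : ∀ i : 𝒦, (C i).Nonempty := fun i => (hAm i.1 i.2).image _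
  have hQne : Q.Nonempty := by
    by_contra h
    rw [not_nonempty_iff_eq_empty] at h
    obtain ⟨i, hi⟩ := key ∅ isOpen_empty (by rw [h])
    obtain ⟨L, hL⟩ := hCne i
    obtain ⟨x, hx⟩ := L.2.1
    exact hi (mem_iUnion₂.2 ⟨L, hL, hx⟩)
  have hQc : IsCompact Q := by
    apply isCompact_of_finite_subcover
    intro ι V hVo hVc
    obtain ⟨i, hi⟩ := key (⋃ j, V j) (isOpen_iUnion hVo) hVc
    obtain ⟨u, hu⟩ := (hcomp i).elim_finite_subcover V hVo hi
    refine ⟨u, ?_⟩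
    exact sInter_subset_of_mem ⟨isOpen_biUnion (fun j _ => hVo j), i, hu⟩
  have hQs : ∀ x, (∀ U : Set W, IsOpen U → Q ⊆ U → x ∈ U) → x ∈ Q := by
    intro x hx U hU
    exact hx U hU.1 (sInter_subset_of_mem hU)
  have hQL : ∀ L ∈ A, Q ⊆ L.1.1 := by
    intro L hL x hx
    apply L.1.2.2.2
    intro U hU hLU
    obtain ⟨K, hKK, hKA⟩ := hmin _ (hbox U hU) ⟨L, hL, hLU⟩
    apply hx U
    refine ⟨hU, ⟨K, hKK⟩, ?_⟩
    intro z hz
    obtain ⟨L', ⟨L'', hL'', rfl⟩, hzL⟩ := mem_iUnion₂.1 hz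
    exact hKA hL'' hzL
  have hPQ : P ⟨Q, hQne, hQc, hQs⟩ := by
    apply hP 𝒦 C
    · exact hCne
    · rintro i _ ⟨L, hL, rfl⟩
      exact L.2
    · exact hcomp
    · exact hCdir
    · rintro i _ ⟨L, hL, rfl⟩
      exact hQL L hL.2
    · intro U hU hQU
      obtain ⟨i, hi⟩ := key U hU hQU
      exact ⟨i, fun L hL => Subset.trans (fun x hx => mem_iUnion₂.2 ⟨L, hL, hx⟩) hi⟩
  set q : {L : PS W // P L} := ⟨⟨Q, hQne, hQc, hQs⟩, hPQ⟩ with hq
  have hqA : q ∈ A := by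
    by_contra h
    obtain ⟨V, hV, hVA⟩ := isOpen_induced_iff.1 hAc.isOpen_compl
    have hqV : q.1 ∈ V := by
      have : q ∈ Subtype.val ⁻¹' V := by rw [hVA]; exact h
      exact this
    obtain ⟨U, hU, hqU, hUV⟩ := PS_basis W V hV q.1 hqV
    obtain ⟨i, hi⟩ := key U hU hqU
    obtain ⟨L, hLK, hLA⟩ := hAm i.1 i.2
    have : L ∈ Subtype.val ⁻¹' V := by
      apply hUV
      exact Subset.trans (fun x hx => mem_iUnion₂.2 ⟨L.1, ⟨L, ⟨hLK, hLA⟩, rfl⟩, hx⟩) hi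
    rw [hVA] at this
    exact this hLA
  have hqK : q ∈ ⋂₀ 𝒦 := by
    intro K hKK
    apply (hK K hKK).2
    intro V hV hKV
    obtain ⟨L, hLK, hLA⟩ := hAm K hKK
    obtain ⟨V', hV', hVA⟩ := isOpen_induced_iff.1 hV
    have hLV : L.1 ∈ V' := by
      have : L ∈ Subtype.val ⁻¹' V' := by rw [hVA]; exact hKV hLK
      exact this
    obtain ⟨U, hU, hqU, hUV⟩ := PS_basis W V' hV' L.1 hLV
    rw [← hVA]
    exact hUV (Subset.trans (hQL L hLA) hqU)
  exact hAU hqA (hsub hqK)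

end Pool.Agent.WFD
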