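import Mathlib
import Pool.Agent.WFD.Gen

set_option autoImplicit false

namespace Pool.Agent.WFD

open Set Pool.Agent.KDet

abbrev I : Type := OnePoint ℕ

/-- points of a bundle over `ω+1` with fibre `Y` -/
@[ext] structure Sp (Y : Type) : Type where
  y : Y
  t : I

class Fib (Y : Type) where
  F : Filter Y
  B : Set Y

section general

variable {Y : Type} [Fib Y]

instance spTop : TopologicalSpace (Sp Y) where
  IsOpen U := (∀ x ∈ (Fib.B : Set Y), IsOpen {t : I | (⟨x, t⟩ : Sp Y) ∈ U}) ∧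
    ∀ t : I, {y : Y | (⟨y, t⟩ : Sp Y) ∈ U} = ∅ ∨ {y : Y | (⟨y, t⟩ : Sp Y) ∈ U} ∈ (Fib.F : Filter Y)
  isOpen_univ := ⟨fun x _ => isOpen_univ, fun t => Or.inr Filter.univ_mem⟩
  isOpen_inter U V hU hV := by
    refine ⟨fun x hx => (hU.1 x hx).inter (hV.1 x hx), fun t => ?_⟩
    rcases hU.2 t with h1 | h1
    · left
      apply subset_empty_iff.1
      rw [← h1]
      intro y hy
      exact hy.1
    · rcases hV.2 t with h2 | h2
      · left
        apply subset_empty_iff.1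
        rw [← h2]
        intro y hy
        exact hy.2
      · right
        exact Filter.inter_mem h1 h2
  isOpen_sUnion S hS := by
    refine ⟨fun x hx => ?_, fun t => ?_⟩
    · have : {t : I | (⟨x, t⟩ : Sp Y) ∈ ⋃₀ S} = ⋃ U ∈ S, {t : I | (⟨x, t⟩ : Sp Y) ∈ U} := by
        ext t; simp
      rw [this]
      exact isOpen_biUnion (fun U hU => (hS U hU).1 x hx)
    · by_cases h : ∃ U ∈ S, {y : Y | (⟨y, t⟩ : Sp Y) ∈ U} ∈ (Fib.F : Filter Y)
      · obtain ⟨U, hU, hF⟩ := h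
        right
        exact Filter.mem_of_superset hF (fun y hy => ⟨U, hU, hy⟩)
      · left
        apply subset_empty_iff.1
        rintro y ⟨U, hU, hy⟩
        rcases (hS U hU).2 t with h1 | h1
        · have : y ∈ {y : Y | (⟨y, t⟩ : Sp Y) ∈ U} := hy
          rw [h1] at this
          exact this
        · exact h ⟨U, hU, h1⟩

theorem sp_open_iff (U : Set (Sp Y)) : IsOpen U ↔ (∀ x ∈ (Fib.B : Set Y), IsOpen {t : I | (⟨x, t⟩ : Sp Y) ∈ U}) ∧
    ∀ t : I, {y : Y | (⟨y, t⟩ : Sp Y) ∈ U} = ∅ ∨ {y : Y | (⟨y, t⟩ : Sp Y) ∈ U} ∈ (Fib.F : Filter Y) := Iff.rfl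

theorem big_of_mem {U : Set (Sp Y)} (hU : IsOpen U) {y : Y} {t : I} (h : (⟨y, t⟩ : Sp Y) ∈ U) :
    {y : Y | (⟨y, t⟩ : Sp Y) ∈ U} ∈ (Fib.F : Filter Y) := by
  rcases hU.2 t with h1 | h1
  · have : y ∈ {y : Y | (⟨y, t⟩ : Sp Y) ∈ U} := h
    rw [h1] at this
    exact absurd this (by simp)
  · exact h1

theorem closed_of (E : Set (Sp Y)) (h1 : ∀ x ∈ (Fib.B : Set Y), {t : I | (⟨x, t⟩ : Sp Y) ∈ E}.Finite)
    (h2 : ∀ t : I, {y : Y | (⟨y, t⟩ : Sp Y) ∈ E}ᶜ ∈ (Fib.F : Filter Y)) : IsClosed E := by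
  rw [← isOpen_compl_iff]
  exact ⟨fun x hx => (h1 x hx).isClosed.isOpen_compl, fun t => Or.inr (h2 t)⟩

theorem closed_fib (R : Set Y) (hR : Rᶜ ∈ (Fib.F : Filter Y)) (t0 : I) : IsClosed {p : Sp Y | p.t = t0 ∧ p.y ∈ R} := by
  apply closed_of
  · intro x _
    exact (finite_singleton t0).subset (fun t ht => ht.1)
  · intro t
    exact Filter.mem_of_superset hR (fun y hy h => hy h.2)

theorem t_cont : Continuous (Sp.t : Sp Y → I) := by
  rw [continuous_def]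
  intro V hV
  refine ⟨fun x _ => hV, fun t => ?_⟩
  by_cases h : t ∈ V
  · right
    exact Filter.mem_of_superset Filter.univ_mem (fun y _ => h)
  · left
    apply subset_empty_iff.1
    intro y hy
    exact h hy

theorem irr_cases (A : Set (Sp Y)) (hc : IsClosed A) (hA : IsIrreducible A) :
    (∃ a, A = {a}) ∨ ∃ t0 : I, A = {p | p.t = t0} := by
  obtain ⟨p0, hp0⟩ := hA.1
  have hsub : (Sp.t '' A).Subsingleton := (hA.2.image Sp.t t_cont.continuousOn).subsingleton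
  have hall : ∀ p ∈ A, p.t = p0.t := fun p hp => hsub ⟨p, hp, rfl⟩ ⟨p0, hp0, rfl⟩
  rcases hc.isOpen_compl.2 p0.t with h | h
  · right
    refine ⟨p0.t, ?_⟩
    ext p
    constructor
    · exact hall p
    · intro hp
      by_contra hpA
      have : p.y ∈ {y : Y | (⟨y, p0.t⟩ : Sp Y) ∈ Aᶜ} := by
        show (⟨p.y, p0.t⟩ : Sp Y) ∈ Aᶜ
        have hp' : p.t = p0.t := hp
        rw [← hp']; exact hpA
      rw [h] at this
      exact this
  · left
    refine ⟨p0, ?_⟩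
    ext q
    constructor
    · intro hq
      have hR : ∀ r : Sp Y, IsClosed {p : Sp Y | p.t = p0.t ∧ p.y ∈ {y : Y | (⟨y, p0.t⟩ : Sp Y) ∈ A ∧ y ≠ r.y}} := by
        intro r
        apply closed_fib
        exact Filter.mem_of_superset h (fun y hy hy' => hy hy'.1)
      obtain ⟨z, hzA, hz1, hz2⟩ := hA.2 _ _ (hR q).isOpen_compl (hR p0).isOpen_compl
        ⟨q, hq, fun hh => hh.2.2 rfl⟩ ⟨p0, hp0, fun hh => hh.2.2 rfl⟩
      have hzt := hall z hzA
      have hz0 : (⟨z.y, p0.t⟩ : Sp Y) ∈ A := by rw [← hzt]; exact hzA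
      have e1 : z.y = q.y := by
        by_contra hne
        exact hz1 ⟨hzt, hz0, hne⟩
      have e2 : z.y = p0.y := by
        by_contra hne
        exact hz2 ⟨hzt, hz0, hne⟩
      exact Sp.ext (e1.symm.trans e2) (hall q hq)
    · intro hq
      rw [mem_singleton_iff.1 hq]; exact hp0

end general

def FX : Filter (ℝ ⊕ ℕ) where
  sets := {S | (Sum.inl ⁻¹' S)ᶜ.Countable ∧ (Sum.inr ⁻¹' S)ᶜ.Finite}
  univ_sets := by simp
  sets_of_superset := fun h hs => ⟨h.1.mono (compl_subset_compl.2 (preimage_mono hs)),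
    h.2.subset (compl_subset_compl.2 (preimage_mono hs))⟩
  inter_sets := fun {S T} h1 h2 => ⟨by
    rw [preimage_inter, compl_inter]; exact h1.1.union h2.1, by
    rw [preimage_inter, compl_inter]; exact h1.2.union h2.2⟩

def FW : Filter (Option (ℝ ⊕ ℕ)) where
  sets := {S | none ∈ S ∧ some ⁻¹' S ∈ FX}
  univ_sets := ⟨trivial, Filter.univ_mem⟩
  sets_of_superset := fun h hs => ⟨hs h.1, Filter.mem_of_superset h.2 (preimage_mono hs)⟩
  inter_sets := fun {S T} h1 h2 => ⟨⟨h1.1, h2.1⟩, Filter.inter_mem h1.2 h2.2⟩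

instance : Fib (ℝ ⊕ ℕ) := ⟨FX, range Sum.inl⟩
instance : Fib (Option (ℝ ⊕ ℕ)) := ⟨FW, range (fun x : ℝ => some (Sum.inl x))⟩

abbrev XX : Type := Sp (ℝ ⊕ ℕ)
abbrev WW : Type := Sp (Option (ℝ ⊕ ℕ))

theorem sobW : Sob WW := by
  intro A hc hA
  rcases irr_cases A hc hA with ⟨a, rfl⟩ | ⟨t0, rfl⟩
  · refine ⟨a, rfl, ?_⟩
    rintro U _ ⟨b, hb, hb'⟩
    rw [mem_singleton_iff.1 hb'] at hb
    exact hb
  · refine ⟨⟨none, t0⟩, rfl, ?_⟩
    rintro U hU ⟨b, hb, hb'⟩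
    have hb'' : b.t = t0 := hb'
    subst hb''
    exact (big_of_mem hU hb).1

theorem single_closed (p : XX) : IsClosed ({p} : Set XX) := by
  have : ({p} : Set XX) = {q : XX | q.t = p.t ∧ q.y ∈ ({p.y} : Set (ℝ ⊕ ℕ))} := by
    ext q
    constructor
    · intro h; rw [mem_singleton_iff.1 h]; exact ⟨rfl, rfl⟩
    · rintro ⟨h1, h2⟩; exact Sp.ext h2 h1
  rw [this]
  apply closed_fib
  constructor
  · refine Set.Countable.mono ?_ (((countable_singleton p.y).preimage Sum.inl_injective))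
    intro x hx
    by_contra h
    exact hx h
  · refine Set.Finite.subset (((finite_singleton p.y).preimage Sum.inr_injective.injOn)) ?_
    intro x hx
    by_contra h
    exact hx h

instance : T0Space XX := by
  rw [t0Space_iff_inseparable]
  intro p q hpq
  by_contra hne
  have := (hpq.mem_open_iff (single_closed p).isOpen_compl).2 (fun h => hne (mem_singleton_iff.1 h).symm)
  exact this rfl

def io (p : XX) : WW := ⟨some p.y, p.t⟩

theorem io_cont : Continuous io := by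
  rw [continuous_def]
  intro U hU
  refine ⟨?_, ?_⟩
  · rintro _ ⟨x, rfl⟩
    exact hU.1 _ ⟨x, rfl⟩
  · intro t
    rcases hU.2 t with h | h
    · left
      apply subset_empty_iff.1
      intro y hy
      have : some y ∈ {y | (⟨y, t⟩ : WW) ∈ U} := hy
      rw [h] at this
      exact this
    · right; exact h.2

def satSet (S : Set WW) : Set WW := {z | ∀ U : Set WW, IsOpen U → S ⊆ U → z ∈ U}

theorem sub_sat (S : Set WW) : S ⊆ satSet S := fun z hz _ _ h => h hz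

def satPS (K : PS XX) : PS WW :=
  ⟨satSet (io '' K.1), ⟨by
    obtain ⟨x, hx⟩ := K.2.1
    exact ⟨io x, sub_sat _ ⟨x, hx, rfl⟩⟩, by
    apply isCompact_of_finite_subcover
    intro ι U hUo hUc
    obtain ⟨u, hu⟩ := (K.2.2.1.image io_cont).elim_finite_subcover U hUo ((sub_sat _).trans hUc)
    refine ⟨u, ?_⟩
    intro z hz
    exact hz _ (isOpen_biUnion (fun j _ => hUo j)) hu, by
    intro x hx U hU hB
    exact hx U hU (fun z hz => hz U hU hB)⟩⟩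

theorem satPS_sub (K : PS XX) (U : Set WW) (hU : IsOpen U) : (satPS K).1 ⊆ U ↔ K.1 ⊆ io ⁻¹' U := by
  constructor
  · intro h x hx
    exact h (sub_sat _ ⟨x, hx, rfl⟩)
  · intro h z hz
    exact hz U hU (by rintro _ ⟨x, hx, rfl⟩; exact h hx)

/-- the subspace property -/
def PP (L : PS WW) : Prop :=
  OnePoint.infty ∈ closure {t : I | (⟨none, t⟩ : WW) ∈ L.1 ∧ t ≠ OnePoint.infty} →
    ∃ x : ℝ, (⟨some (Sum.inl x), OnePoint.infty⟩ : WW) ∈ L.1

theorem fibfin (M : Set WW) (hM : IsCompact M) : {x : ℝ | (⟨some (Sum.inl x), OnePoint.infty⟩ : WW) ∈ M}.Finite := by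
  by_contra hinf
  have hinf' : {x : ℝ | (⟨some (Sum.inl x), OnePoint.infty⟩ : WW) ∈ M}.Infinite := hinf
  set e := hinf'.natEmbedding with he
  refine no_seq hM (fun l => (⟨some (Sum.inl (e l).1), OnePoint.infty⟩ : WW)) ?_ ?_ (fun l => (e l).2)
  · intro a b hab
    simp only [Sp.mk.injEq, Option.some.injEq, Sum.inl.injEq, and_true] at hab
    exact e.injective (Subtype.ext hab)
  · intro k
    have : ((fun l => (⟨some (Sum.inl (e l).1), OnePoint.infty⟩ : WW)) '' {l | k ≤ l}) =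
      {p : WW | p.t = OnePoint.infty ∧ p.y ∈ ((fun l => (some (Sum.inl (e l).1) : Option (ℝ ⊕ ℕ))) '' {l | k ≤ l})} := by
      ext p
      constructor
      · rintro ⟨l, hl, rfl⟩; exact ⟨rfl, l, hl, rfl⟩
      · rintro ⟨h1, l, hl, h2⟩; exact ⟨l, hl, Sp.ext h2 h1.symm⟩
    rw [this]
    apply closed_fib
    refine ⟨?_, ?_, ?_⟩
    · rintro ⟨l, _, hl⟩; exact absurd hl (by simp)
    · refine Set.Countable.mono ?_ (countable_range (fun l => (e l).1))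
      intro x hx
      by_contra h
      apply hx
      rintro ⟨l, _, hl⟩
      simp only [Option.some.injEq, Sum.inl.injEq] at hl
      exact h ⟨l, hl⟩
    · convert finite_empty
      ext d
      simp

theorem remfin (F0 : Set ℝ) (hF : F0.Finite) :
    IsOpen {p : WW | p.t = OnePoint.infty ∧ p.y ∈ (fun x : ℝ => (some (Sum.inl x) : Option (ℝ ⊕ ℕ))) '' F0}ᶜ := by
  apply IsClosed.isOpen_compl (self := ?_)
  apply closed_fib
  refine ⟨?_, ?_, ?_⟩
  · rintro ⟨l, _, hl⟩; exact absurd hl (by simp)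
  · refine Set.Countable.mono ?_ hF.countable
    intro x hx
    by_contra h
    apply hx
    rintro ⟨l, hl', hl⟩
    simp only [Option.some.injEq, Sum.inl.injEq] at hl
    subst hl
    exact h hl'
  · convert finite_empty
    ext d
    simp

abbrev ZZ : Type := {L : PS WW // PP L}

theorem wfZ (𝒦 : Set (Set ZZ)) (𝒰 : Set ZZ)
    (hK : ∀ K ∈ 𝒦, IsCompact K ∧
            ∀ y : ZZ, (∀ V : Set ZZ, IsOpen V → K ⊆ V → y ∈ V) → y ∈ K)
    (hne : 𝒦.Nonempty) (hdir : ∀ K₁ ∈ 𝒦, ∀ K₂ ∈ 𝒦, ∃ K₃ ∈ 𝒦, K₃ ⊆ K₁ ∩ K₂)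
    (hU : IsOpen 𝒰) (hsub : ⋂₀ 𝒦 ⊆ 𝒰) : ∃ K ∈ 𝒦, K ⊆ 𝒰 := by
  refine wf_sub sobW PP ?_ 𝒦 𝒰 hK hne hdir hU hsub
  intro ι _ C Q hCne hCP hCc hCdir hCQ hCU h2
  by_contra hno
  push Not at hno
  obtain ⟨i0⟩ := (inferInstance : Nonempty ι)
  have hfin := fibfin _ (hCc i0)
  obtain ⟨i1, hi1⟩ := hCU _ (remfin _ hfin) (by
    rintro p hp ⟨h3, x, _, h5⟩
    apply hno x
    have : p = ⟨some (Sum.inl x), OnePoint.infty⟩ := Sp.ext h5.symm h3
    rw [← this]; exact hp)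
  obtain ⟨k, hk⟩ := hCdir i0 i1
  obtain ⟨L, hL⟩ := hCne k
  have hss : {t : I | (⟨none, t⟩ : WW) ∈ Q.1 ∧ t ≠ OnePoint.infty} ⊆ {t : I | (⟨none, t⟩ : WW) ∈ L.1 ∧ t ≠ OnePoint.infty} :=
    fun t ht => ⟨hCQ k L hL ht.1, ht.2⟩
  have hcm : (OnePoint.infty : I) ∈ closure {t : I | (⟨none, t⟩ : WW) ∈ L.1 ∧ t ≠ OnePoint.infty} :=
    closure_mono hss h2
  obtain ⟨x, hx⟩ := hCP k L hL hcm
  exact hi1 L (hk hL).2 hx ⟨rfl, x, mem_iUnion₂.2 ⟨L, (hk hL).1, hx⟩, rfl⟩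

theorem FK_fin (K : Set XX) (hK : IsCompact K) : {x : ℝ | ∃ t, (⟨Sum.inl x, t⟩ : XX) ∈ K}.Finite := by
  by_contra hinf
  have hinf' : {x : ℝ | ∃ t, (⟨Sum.inl x, t⟩ : XX) ∈ K}.Infinite := hinf
  set e := hinf'.natEmbedding with he
  choose g hg using (fun l => (e l).2)
  refine no_seq hK (fun l => (⟨Sum.inl (e l).1, g l⟩ : XX)) ?_ ?_ hg
  · intro a b hab
    simp only [Sp.mk.injEq, Sum.inl.injEq] at hab
    exact e.injective (Subtype.ext hab.1)
  · intro k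
    apply closed_of
    · rintro _ ⟨x, rfl⟩
      apply Set.Subsingleton.finite
      rintro t ⟨l, _, hl⟩ t' ⟨l', _, hl'⟩
      simp only [Sp.mk.injEq, Sum.inl.injEq] at hl hl'
      have : l = l' := e.injective (Subtype.ext (hl.1.trans hl'.1.symm))
      subst this
      exact hl.2.symm.trans hl'.2
    · intro t
      refine ⟨?_, ?_⟩
      · refine Set.Countable.mono ?_ (countable_range (fun l => (e l).1))
        intro x hx
        by_contra h
        apply hx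
        rintro ⟨l, _, hl⟩
        simp only [Sp.mk.injEq, Sum.inl.injEq] at hl
        exact h ⟨l, hl.1⟩
      · convert finite_empty
        ext d
        simp

theorem ED_fin (K : Set XX) (hK : IsCompact K) : {t : I | ∃ d, (⟨Sum.inr d, t⟩ : XX) ∈ K}.Finite := by
  by_contra hinf
  have hinf' : {t : I | ∃ d, (⟨Sum.inr d, t⟩ : XX) ∈ K}.Infinite := hinf
  set e := hinf'.natEmbedding with he
  choose g hg using (fun l => (e l).2)
  refine no_seq hK (fun l => (⟨Sum.inr (g l), (e l).1⟩ : XX)) ?_ ?_ hg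
  · intro a b hab
    simp only [Sp.mk.injEq, Sum.inr.injEq] at hab
    exact e.injective (Subtype.ext hab.2)
  · intro k
    apply closed_of
    · rintro _ ⟨x, rfl⟩
      convert finite_empty
      ext t
      simp
    · intro t
      refine ⟨?_, ?_⟩
      · convert countable_empty
        ext d
        simp
      · apply Set.Subsingleton.finite
        intro d hd d' hd'
        rw [mem_compl_iff, mem_preimage, mem_compl_iff, not_not] at hd hd'
        obtain ⟨l, _, hl⟩ := hd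
        obtain ⟨l', _, hl'⟩ := hd'
        simp only [Sp.mk.injEq, Sum.inr.injEq] at hl hl'
        have : l = l' := e.injective (Subtype.ext (hl.2.trans hl'.2.symm))
        subst this
        exact hl.1.symm.trans hl'.1

theorem col_closed (x : ℝ) : IsClosed {p : XX | p.y = Sum.inl x} := by
  rw [← isOpen_compl_iff]
  refine ⟨?_, ?_⟩
  · rintro _ ⟨z, rfl⟩
    by_cases h : z = x
    · subst h
      convert isOpen_empty
      ext t
      simp
    · convert isOpen_univ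
      ext t
      simp [h]
  · intro t
    right
    refine ⟨?_, ?_⟩
    · refine Set.Countable.mono ?_ (countable_singleton x)
      intro z hz
      by_contra h
      apply hz
      show ¬ (Sum.inl z : ℝ ⊕ ℕ) = Sum.inl x
      intro hh
      exact h (Sum.inl.inj hh)
    · convert finite_empty
      ext d
      simp

theorem col_fib_closed (K : Set XX) (hK : IsCompact K) (x : ℝ) : IsClosed {t : I | (⟨Sum.inl x, t⟩ : XX) ∈ K} := by
  have h1 : IsCompact (K ∩ {p : XX | p.y = Sum.inl x}) := hK.inter_right (col_closed x)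
  have h2 := (h1.image t_cont).isClosed
  convert h2 using 1
  ext t
  constructor
  · intro h; exact ⟨⟨Sum.inl x, t⟩, ⟨h, rfl⟩, rfl⟩
  · rintro ⟨p, ⟨h3, h4⟩, rfl⟩
    have : p = ⟨Sum.inl x, p.t⟩ := Sp.ext h4 rfl
    show (⟨Sum.inl x, p.t⟩ : XX) ∈ K
    rw [← this]; exact h3

theorem PP_sat (K : PS XX) : PP (satPS K) := by
  intro h2
  have hT : ∀ t : I, (⟨none, t⟩ : WW) ∈ (satPS K).1 → ∃ p ∈ K.1, p.t = t := by
    intro t ht
    by_contra hcon
    push Not at hcon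
    have hop : IsOpen {p : WW | p.t ∈ ({t}ᶜ : Set I)} := isOpen_compl_singleton.preimage t_cont
    have := ht _ hop (by
      rintro _ ⟨p, hp, rfl⟩
      exact fun h => hcon p hp (mem_singleton_iff.1 h))
    exact this rfl
  have hcl : IsClosed ((⋃ x ∈ {x : ℝ | ∃ t, (⟨Sum.inl x, t⟩ : XX) ∈ K.1}, {t : I | (⟨Sum.inl x, t⟩ : XX) ∈ K.1}) ∪
      ({t : I | ∃ d, (⟨Sum.inr d, t⟩ : XX) ∈ K.1} \ {OnePoint.infty})) := by
    apply IsClosed.union
    · exact (FK_fin K.1 K.2.2.1).isClosed_biUnion (fun x _ => col_fib_closed K.1 K.2.2.1 x)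
    · exact ((ED_fin K.1 K.2.2.1).subset sdiff_subset).isClosed
  have hsub : {t : I | (⟨none, t⟩ : WW) ∈ (satPS K).1 ∧ t ≠ OnePoint.infty} ⊆
      ((⋃ x ∈ {x : ℝ | ∃ t, (⟨Sum.inl x, t⟩ : XX) ∈ K.1}, {t : I | (⟨Sum.inl x, t⟩ : XX) ∈ K.1}) ∪
      ({t : I | ∃ d, (⟨Sum.inr d, t⟩ : XX) ∈ K.1} \ {OnePoint.infty})) := by
    rintro t ⟨ht, hne⟩
    obtain ⟨p, hp, rfl⟩ := hT t ht
    rcases hpy : p.y with x | d
    · left
      have hp' : (⟨Sum.inl x, p.t⟩ : XX) ∈ K.1 := by rw [← hpy]; exact hp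
      exact mem_iUnion₂.2 ⟨x, ⟨p.t, hp'⟩, hp'⟩
    · right
      have hp' : (⟨Sum.inr d, p.t⟩ : XX) ∈ K.1 := by rw [← hpy]; exact hp
      exact ⟨⟨d, hp'⟩, hne⟩
  rcases closure_minimal hsub hcl h2 with h | h
  · obtain ⟨x, _, hx⟩ := mem_iUnion₂.1 h
    exact ⟨x, sub_sat _ ⟨_, hx, rfl⟩⟩
  · exact absurd rfl h.2

def fz (K : PS XX) : ZZ := ⟨satPS K, PP_sat K⟩

theorem fz_cont : Continuous fz := by
  apply Continuous.subtype_mk
  refine continuous_generateFrom_iff.2 ?_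
  rintro S ⟨U, hU, rfl⟩
  have : satPS ⁻¹' {K : PS WW | K.1 ⊆ U} = {K : PS XX | K.1 ⊆ io ⁻¹' U} := by
    ext K; exact satPS_sub K U hU
  rw [this]
  exact PS_box _ _ (hU.preimage io_cont)

theorem vert_cont (x : ℝ) : Continuous (fun t : I => (⟨Sum.inl x, t⟩ : XX)) := by
  rw [continuous_def]
  intro U hU
  exact hU.1 _ ⟨x, rfl⟩

def Kx (x : ℝ) : PS XX :=
  ⟨{p : XX | p.y = Sum.inl x}, ⟨⟨Sum.inl x, OnePoint.infty⟩, rfl⟩, by
    have : {p : XX | p.y = Sum.inl x} = range (fun t : I => (⟨Sum.inl x, t⟩ : XX)) := by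
      ext p
      constructor
      · intro h; exact ⟨p.t, Sp.ext (Eq.symm h) rfl⟩
      · rintro ⟨t, rfl⟩; rfl
    rw [this]
    exact isCompact_range (vert_cont x), by
    intro z hz
    by_contra h
    have := hz _ (single_closed z).isOpen_compl (by
      intro p hp hpz
      rw [mem_singleton_iff.1 hpz] at hp
      exact h hp)
    exact this rfl⟩

theorem common (U V : Set XX) (hU : IsOpen U) (hV : IsOpen V) (x y : ℝ) (hx : (Kx x).1 ⊆ U) (hy : (Kx y).1 ⊆ V) :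
    ∃ z : ℝ, (Kx z).1 ⊆ U ∩ V := by
  have hcount : (⋃ t : I, (Sum.inl ⁻¹' ({w : ℝ ⊕ ℕ | (⟨w, t⟩ : XX) ∈ U ∩ V}) : Set ℝ)ᶜ).Countable := by
    haveI : Countable I := inferInstanceAs (Countable (Option ℕ))
    apply countable_iUnion
    intro t
    have h1 := big_of_mem hU (hx (show (⟨Sum.inl x, t⟩ : XX) ∈ (Kx x).1 from rfl))
    have h2 := big_of_mem hV (hy (show (⟨Sum.inl y, t⟩ : XX) ∈ (Kx y).1 from rfl))
    exact (Filter.inter_mem h1 h2).1
  have hne : ((⋃ t : I, (Sum.inl ⁻¹' ({w : ℝ ⊕ ℕ | (⟨w, t⟩ : XX) ∈ U ∩ V}) : Set ℝ)ᶜ)) ≠ univ := by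
    intro h
    rw [h] at hcount
    exact Cardinal.not_countable_real hcount
  obtain ⟨z, hz⟩ := (ne_univ_iff_exists_notMem _).1 hne
  refine ⟨z, ?_⟩
  intro p hp
  have hp' : p = ⟨Sum.inl z, p.t⟩ := Sp.ext hp rfl
  rw [hp']
  by_contra hc
  exact hz (mem_iUnion.2 ⟨p.t, hc⟩)

theorem irr_range : IsIrreducible (range Kx) := by
  refine ⟨⟨Kx 0, 0, rfl⟩, ?_⟩
  rintro 𝒰 𝒱 hU hV ⟨_, ⟨x, rfl⟩, hx⟩ ⟨_, ⟨y, rfl⟩, hy⟩
  obtain ⟨U, hUo, hxU, hUU⟩ := PS_basis XX 𝒰 hU _ hx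
  obtain ⟨V, hVo, hyV, hVV⟩ := PS_basis XX 𝒱 hV _ hy
  obtain ⟨z, hz⟩ := common U V hUo hVo x y hxU hyV
  exact ⟨Kx z, ⟨z, rfl⟩, hUU (hz.trans inter_subset_left), hVV (hz.trans inter_subset_right)⟩

theorem inf_clos : (OnePoint.infty : I) ∈ closure {t : I | t ≠ OnePoint.infty} := by
  haveI : NoncompactSpace ℕ := ⟨fun h => Set.infinite_univ h.finite_of_discrete⟩
  have h1 := OnePoint.denseRange_coe (X := ℕ)
  have h2 : {t : I | t ≠ OnePoint.infty} = range ((↑) : ℕ → OnePoint ℕ) := by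
    rw [← OnePoint.compl_infty]; rfl
  rw [h2]
  exact h1 _

theorem not_det : ¬ ∃ y : ZZ, closure (fz '' closure (range Kx)) = closure {y} := by
  rintro ⟨Q, hQ⟩
  rw [closure_image_closure fz_cont, closure_eq_iff] at hQ
  have hall : ∀ t : I, (⟨none, t⟩ : WW) ∈ Q.1.1 := by
    intro t
    by_contra h
    have hop : IsOpen {p : WW | p.t ∈ ({t}ᶜ : Set I)} := isOpen_compl_singleton.preimage t_cont
    have hV : IsOpen {R : ZZ | R.1.1 ⊆ {p : WW | p.t ∈ ({t}ᶜ : Set I)}} :=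
      (PS_box _ _ hop).preimage continuous_subtype_val
    obtain ⟨_, hv, ⟨_, ⟨x, rfl⟩, rfl⟩⟩ := (hQ _ hV).2 (by
      intro p hp hpt
      apply h
      apply Q.1.2.2.2
      intro U hU hQU
      have hpt' : p.t = t := hpt
      have := (big_of_mem (y := p.y) (t := p.t) hU (hQU hp)).1
      rw [← hpt']; exact this)
    have : io ⟨Sum.inl x, t⟩ ∈ (satPS (Kx x)).1 := sub_sat _ ⟨_, rfl, rfl⟩
    exact hv this rfl
  obtain ⟨x, hx⟩ := Q.2 (by
    refine closure_mono ?_ inf_clos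
    intro t ht
    exact ⟨hall t, ht⟩)
  have hop := remfin {x} (finite_singleton x)
  have hV : IsOpen {R : ZZ | R.1.1 ⊆ {p : WW | p.t = OnePoint.infty ∧ p.y ∈ (fun x : ℝ => (some (Sum.inl x) : Option (ℝ ⊕ ℕ))) '' {x}}ᶜ} :=
    (PS_box _ _ hop).preimage continuous_subtype_val
  have := (hQ _ hV).1 ⟨fz (Kx (x+1)), by
    show (satPS _).1 ⊆ _
    rw [satPS_sub _ _ hop]
    rintro p hp ⟨_, z, hz, hz'⟩
    have hp' : p.y = Sum.inl (x+1) := hp
    rw [mem_singleton_iff.1 hz] at hz'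
    have hz'' : some (Sum.inl x) = some p.y := hz'
    rw [hp'] at hz''
    simp at hz'', ⟨_, ⟨_, rfl⟩, rfl⟩⟩
  exact this hx ⟨rfl, x, rfl, rfl⟩

theorem Kn_compact (t0 : I) (n : ℕ) : IsCompact {p : XX | p.t = t0 ∧ ∃ d, n ≤ d ∧ p.y = Sum.inr d} := by
  classical
  apply isCompact_of_finite_subcover
  intro ι V hVo hVc
  have h0 := hVc (show (⟨Sum.inr n, t0⟩ : XX) ∈ _ from ⟨rfl, n, le_refl n, rfl⟩)
  obtain ⟨i0, hi0⟩ := mem_iUnion.1 h0
  have hfin : {d : ℕ | (⟨Sum.inr d, t0⟩ : XX) ∉ V i0}.Finite := (big_of_mem (hVo i0) hi0).2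
  have hch : ∀ d : ℕ, ∃ i, n ≤ d → (⟨Sum.inr d, t0⟩ : XX) ∈ V i := by
    intro d
    by_cases hd : n ≤ d
    · obtain ⟨i, hi⟩ := mem_iUnion.1 (hVc (show (⟨Sum.inr d, t0⟩ : XX) ∈ _ from ⟨rfl, d, hd, rfl⟩))
      exact ⟨i, fun _ => hi⟩
    · exact ⟨i0, fun h => absurd h hd⟩
  choose g hg using hch
  refine ⟨insert i0 (hfin.toFinset.image g), ?_⟩
  rintro p ⟨hpt, d, hd, hpy⟩
  have hp : p = ⟨Sum.inr d, t0⟩ := Sp.ext hpy hpt
  subst hp
  by_cases h : (⟨Sum.inr d, t0⟩ : XX) ∈ V i0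
  · exact mem_iUnion₂.2 ⟨i0, Finset.mem_insert_self _ _, h⟩
  · exact mem_iUnion₂.2 ⟨g d, Finset.mem_insert_of_mem (Finset.mem_image_of_mem g (hfin.mem_toFinset.2 h)), hg d hd⟩

theorem wfdX (A : Set XX) (hc : IsClosed A) (hA : IsIrreducible A) (Y : Type) [TopologicalSpace Y]
    (hWF : ∀ (𝒦 : Set (Set Y)) (U : Set Y),
          (∀ K ∈ 𝒦, IsCompact K ∧
            ∀ y : Y, (∀ V : Set Y, IsOpen V → K ⊆ V → y ∈ V) → y ∈ K) →
          𝒦.Nonempty →
          (∀ K₁ ∈ 𝒦, ∀ K₂ ∈ 𝒦, ∃ K₃ ∈ 𝒦, K₃ ⊆ K₁ ∩ K₂) →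
          IsOpen U → ⋂₀ 𝒦 ⊆ U → ∃ K ∈ 𝒦, K ⊆ U)
    (f : XX → Y) (hf : Continuous f) : ∃ y : Y, closure (f '' A) = closure {y} := by
  rcases irr_cases A hc hA with ⟨a, rfl⟩ | ⟨t0, rfl⟩
  · exact ⟨f a, by rw [image_singleton]⟩
  · set Kn : ℕ → Set XX := fun n => {p : XX | p.t = t0 ∧ ∃ d, n ≤ d ∧ p.y = Sum.inr d} with hKn
    set Sn : ℕ → Set Y := fun n => {y | ∀ V : Set Y, IsOpen V → f '' Kn n ⊆ V → y ∈ V} with hSn
    have hsubS : ∀ n, f '' Kn n ⊆ Sn n := fun n y hy V _ h => h hy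
    have hmonoK : ∀ a b, a ≤ b → Kn b ⊆ Kn a := by
      rintro a b hab p ⟨h1, d, h2, h3⟩
      exact ⟨h1, d, hab.trans h2, h3⟩
    have hmono : ∀ a b, a ≤ b → Sn b ⊆ Sn a := by
      intro a b hab y hy V hV h
      exact hy V hV ((image_mono (hmonoK a b hab)).trans h)
    have hex : ∃ y, y ∈ ⋂₀ (range Sn) ∧ y ∈ closure (f '' {p : XX | p.t = t0}) := by
      by_contra hcon
      push Not at hcon
      obtain ⟨K, ⟨n, rfl⟩, hK⟩ := hWF (range Sn) (closure (f '' {p : XX | p.t = t0}))ᶜ (by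
        rintro _ ⟨n, rfl⟩
        refine ⟨?_, ?_⟩
        · apply isCompact_of_finite_subcover
          intro ι U hUo hUc
          obtain ⟨u, hu⟩ := ((Kn_compact t0 n).image hf).elim_finite_subcover U hUo ((hsubS n).trans hUc)
          refine ⟨u, ?_⟩
          intro z hz
          exact hz _ (isOpen_biUnion (fun j _ => hUo j)) hu
        · intro x hx U hU hB
          exact hx U hU (fun z hz => hz U hU hB)) ⟨_, 0, rfl⟩ (by
        rintro _ ⟨a, rfl⟩ _ ⟨b, rfl⟩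
        exact ⟨_, ⟨max a b, rfl⟩, subset_inter (hmono _ _ (le_max_left a b)) (hmono _ _ (le_max_right a b))⟩)
        isClosed_closure.isOpen_compl (fun y hy => hcon y hy)
      have hp : (⟨Sum.inr n, t0⟩ : XX) ∈ Kn n := ⟨rfl, n, le_refl n, rfl⟩
      exact hK (hsubS n ⟨_, hp, rfl⟩) (subset_closure ⟨_, rfl, rfl⟩)
    obtain ⟨y, hy1, hy2⟩ := hex
    refine ⟨y, ?_⟩
    rw [closure_eq_iff]
    intro V hV
    constructor
    · rintro ⟨_, hv, ⟨p, hp, rfl⟩⟩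
      have hp' : p.t = t0 := hp
      have hb := big_of_mem (y := p.y) (t := p.t) (hV.preimage hf) hv
      rw [hp'] at hb
      have hfin : {d : ℕ | (⟨Sum.inr d, t0⟩ : XX) ∉ f ⁻¹' V}.Finite := hb.2
      obtain ⟨n, hn⟩ := hfin.bddAbove
      apply hy1 (Sn (n+1)) ⟨n+1, rfl⟩ V hV
      rintro _ ⟨q, ⟨h1, d, h2, h3⟩, rfl⟩
      by_contra hc
      have hq : q = ⟨Sum.inr d, t0⟩ := Sp.ext h3 h1
      have : d ∈ {d : ℕ | (⟨Sum.inr d, t0⟩ : XX) ∉ f ⁻¹' V} := by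
        show (⟨Sum.inr d, t0⟩ : XX) ∉ f ⁻¹' V
        rw [← hq]; exact hc
      have := hn this
      omega
    · intro h
      exact mem_closure_iff.1 hy2 V hV h

theorem main :
    ¬ (∀ (WF : (Y : Type) → TopologicalSpace Y → Prop),
    (∀ (Y : Type) (s : TopologicalSpace Y), WF Y s ↔
      (@T0Space Y s ∧
        ∀ (𝒦 : Set (Set Y)) (U : Set Y),
          (∀ K ∈ 𝒦, @IsCompact Y s K ∧
            ∀ y : Y, (∀ V : Set Y, @IsOpen Y s V → K ⊆ V → y ∈ V) → y ∈ K) →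
          𝒦.Nonempty →
          (∀ K₁ ∈ 𝒦, ∀ K₂ ∈ 𝒦, ∃ K₃ ∈ 𝒦, K₃ ⊆ K₁ ∩ K₂) →
          @IsOpen Y s U → ⋂₀ 𝒦 ⊆ U → ∃ K ∈ 𝒦, K ⊆ U)) →
  ∀ (WFD : (Z : Type) → TopologicalSpace Z → Prop),
    (∀ (Z : Type) (t : TopologicalSpace Z), WFD Z t ↔
      ∀ A : Set Z, @IsClosed Z t A → @IsIrreducible Z t A →
        ∀ (Y : Type) (s : TopologicalSpace Y) (f : Z → Y), WF Y s → @Continuous Z Y t s f →
          ∃ y : Y, @closure Y s (f '' A) = @closure Y s {y}) →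
  ∀ (X : Type) (t : TopologicalSpace X), @T0Space X t → WFD X t →
    WFD {K : Set X // K.Nonempty ∧ @IsCompact X t K ∧
          ∀ x : X, (∀ V : Set X, @IsOpen X t V → K ⊆ V → x ∈ V) → x ∈ K}
      (TopologicalSpace.generateFrom
        {S | ∃ U : Set X, @IsOpen X t U ∧ S = {K | K.1 ⊆ U}})) := by
  intro H
  have h1 := H (fun Y s => (@T0Space Y s ∧
        ∀ (𝒦 : Set (Set Y)) (U : Set Y),
          (∀ K ∈ 𝒦, @IsCompact Y s K ∧
            ∀ y : Y, (∀ V : Set Y, @IsOpen Y s V → K ⊆ V → y ∈ V) → y ∈ K) →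
          𝒦.Nonempty →
          (∀ K₁ ∈ 𝒦, ∀ K₂ ∈ 𝒦, ∃ K₃ ∈ 𝒦, K₃ ⊆ K₁ ∩ K₂) →
          @IsOpen Y s U → ⋂₀ 𝒦 ⊆ U → ∃ K ∈ 𝒦, K ⊆ U)) (fun _ _ => Iff.rfl)
    (fun Z t => ∀ A : Set Z, @IsClosed Z t A → @IsIrreducible Z t A →
        ∀ (Y : Type) (s : TopologicalSpace Y) (f : Z → Y), (@T0Space Y s ∧
        ∀ (𝒦 : Set (Set Y)) (U : Set Y),
          (∀ K ∈ 𝒦, @IsCompact Y s K ∧
            ∀ y : Y, (∀ V : Set Y, @IsOpen Y s V → K ⊆ V → y ∈ V) → y ∈ K) →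
          𝒦.Nonempty →
          (∀ K₁ ∈ 𝒦, ∀ K₂ ∈ 𝒦, ∃ K₃ ∈ 𝒦, K₃ ⊆ K₁ ∩ K₂) →
          @IsOpen Y s U → ⋂₀ 𝒦 ⊆ U → ∃ K ∈ 𝒦, K ⊆ U) → @Continuous Z Y t s f →
          ∃ y : Y, @closure Y s (f '' A) = @closure Y s {y}) (fun _ _ => Iff.rfl)
    XX inferInstance inferInstance
    (fun A hc hA Y s f hWF hf => @wfdX A hc hA Y s hWF.2 f hf)
  have hPt0 : T0Space (PS WW) := PS_t0 WW
  have hcl : IsClosed (closure (range Kx)) := isClosed_closure
  have hir : IsIrreducible (closure (range Kx)) := irr_range.closure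
  have h2 := h1 _ hcl hir ZZ inferInstance fz
    ⟨inferInstance, fun 𝒦 U hK hne hdir hU hsub => wfZ 𝒦 U hK hne hdir hU hsub⟩ fz_cont
  exact not_det h2

end Pool.Agent.WFD
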